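import Mathlib
import Pool.Agent.H63.Check

set_option autoImplicit false

/-!
# Euclidean Max-3DM: unary instances and approximation
-/

namespace Pool.Agent.H9.M3

open Pool.Agent.H80.Poly Pool.Agent.H63.Max3DM

/-- Vectors of natural numbers in unary: the list of the coordinates. -/
instance instBEncUVec (s : ℕ) : BEnc (Fin s → UNat) :=
  ⟨fun v => enc (List.ofFn v), fun v w h => List.ofFn_injective (BEnc.enc_inj h)⟩

/-- The rational vector with the given natural coordinates. -/
def natVec {s : ℕ} (v : Fin s → UNat) : Fin s → ℚ := fun i => ((v i).toNat : ℚ)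

/-- The decision problem Euclidean Max-3DM in `ℝˢ` for natural coordinates and a natural threshold,
all written in unary. -/
def MaxPerimeterU (s : ℕ) (I : List (Fin s → UNat) × UNat) : Prop :=
  MaxPerimeter s (I.1.map natVec, ((I.2.toNat : ℕ) : ℚ))

/-- The function `apx` is a family of approximations for Euclidean Max-3DM in `ℝˢ`: for each list
`P` of `3 n` distinct points of `ℝˢ` with rational coordinates and each `k`, `apx (P, k)` is a list
of `n` triples which form a partition of `P` into triangles, and its total perimeter is at least
`1 - 1 / (k + 1)` times the total perimeter of any other partition of `P` into triangles. -/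
def Approximates (s : ℕ)
    (apx : List (Fin s → ℚ) × UNat → List ((Fin s → ℚ) × (Fin s → ℚ) × (Fin s → ℚ))) : Prop :=
  ∀ (P : List (Fin s → ℚ)) (k : UNat), P.Nodup → 3 ∣ P.length →
    3 * (apx (P, k)).length = P.length ∧
    IsTrianglePartition {x | ∃ v ∈ P, toPoint v = x} (triangles (apx (P, k))) ∧
    ∀ π' : Finset (Finset (EuclideanSpace ℝ (Fin s))),
      IsTrianglePartition {x | ∃ v ∈ P, toPoint v = x} π' →
        (1 - 1 / ((k.toNat : ℝ) + 1)) * ∑ t ∈ π', perimeter t ≤
          ∑ t ∈ triangles (apx (P, k)), perimeter t

end Pool.Agent.H9.M3
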