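import Mathlib
import Pool.Agent.H63.Opt

set_option autoImplicit false

/-!
# The gap between good and bad partitions; polynomial bounds for the instances
-/

namespace Pool.Agent.H9.M3

open Pool.Agent.H63.TriGeom Pool.Agent.H63.TriPart Pool.Agent.H63.SatCol
open Pool.Agent.H63.Elems Pool.Agent.H63.Max3DM Pool.Agent.H63.Red Pool.Agent.H63.Opt

/-- Values of partitions: an upper bound for all of them, a lower bound for the good ones. -/
theorem geom_gap {E : Type*} [MetricSpace E] [DecidableEq E] (f : El → E) {c M W : ℝ} (hc : 0 < c)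
    (hW : 1 ≤ W) (hM : 1000 * W ≤ M) (U : Finset El)
    (hf : ∀ e ∈ U, ∀ e' ∈ U, dist (f e) (f e') = c * dd M e e')
    (hU : ∀ e ∈ U, Bd W e) (hcard : (U.card : ℝ) * (51 * W) ^ 3 ≤ M)
    (T : Finset (Finset El)) (hT : IsTriPartition U T) :
    ∑ t ∈ T.image (fun t => t.image f), Pool.Agent.H63.TriPart.perimeter t ≤
        c * (∑ e ∈ U, ψ M e + 1 / 10 / M) ∧
      ((∀ t ∈ T, Good t) → c * (∑ e ∈ U, ψ M e - 1 / 10 / M) ≤
        ∑ t ∈ T.image (fun t => t.image f), Pool.Agent.H63.TriPart.perimeter t) := by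
  have hMpos : 0 < M := by linarith
  have hinj : Set.InjOn f U := by
    intro e he e' he' heq
    have h1 := hf e he e' he'
    rw [heq, dist_self] at h1
    have h2 : dd M e e' = 0 := by
      rcases mul_eq_zero.mp h1.symm with h | h
      · exact absurd h hc.ne'
      · exact h
    exact dd_inj hW hM (hU e he) (hU e' he') h2
  have herr : (T.card : ℝ) * (3 * ((51 * W) ^ 3 / (10 * M ^ 2))) ≤ 1 / 10 / M := by
    have hc : (U.card : ℝ) = 3 * T.card := by exact_mod_cast hT.card_eq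
    rw [show (T.card : ℝ) * (3 * ((51 * W) ^ 3 / (10 * M ^ 2)))
        = (3 * T.card * (51 * W) ^ 3) / (10 * M ^ 2) by ring, ← hc,
      show (1 : ℝ) / 10 / M = M / (10 * M ^ 2) by field_simp]
    exact div_le_div_of_nonneg_right hcard (by positivity)
  have hper : ∑ t ∈ T.image (fun t => t.image f), Pool.Agent.H63.TriPart.perimeter t = c * ∑ t ∈ T, per M t := by
    rw [image_sum hinj hT, Finset.mul_sum]
    apply Finset.sum_congr rfl
    intro t ht
    have hsub := (hT.1 t ht).2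
    exact perimeter_image (hinj.mono (by exact_mod_cast hsub))
      (fun e he e' he' => hf e (hsub he) e' (hsub he'))
  have hbd : ∀ t ∈ T, ∀ e ∈ t, Bd W e :=
    fun t ht e he => hU e ((hT.1 t ht).2 he)
  rw [hper, ← hT.sum_eq]
  constructor
  · apply mul_le_mul_of_nonneg_left _ hc.le
    have h1 : ∑ t ∈ T, per M t
        ≤ ∑ t ∈ T, (∑ e ∈ t, ψ M e + 3 * ((51 * W) ^ 3 / (10 * M ^ 2))) := by
      apply Finset.sum_le_sum
      intro t ht
      by_cases hg : Good t
      · exact per_good_upper hM hW (hbd t ht) hg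
      · have := per_upper hM hW (hT.1 t ht).1 (hbd t ht) hg
        have hp : 0 ≤ 72 / 5 / M := by positivity
        linarith
    rw [Finset.sum_add_distrib, Finset.sum_const, nsmul_eq_mul] at h1
    linarith
  · intro hgood
    apply mul_le_mul_of_nonneg_left _ hc.le
    have h1 : ∑ t ∈ T, (∑ e ∈ t, ψ M e - 3 * ((51 * W) ^ 3 / (10 * M ^ 2)))
        ≤ ∑ t ∈ T, per M t := by
      apply Finset.sum_le_sum
      intro t ht
      exact per_good_lower hM hW (hbd t ht) (hgood t ht)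
    rw [Finset.sum_sub_distrib, Finset.sum_const, nsmul_eq_mul] at h1
    linarith

/-- A polynomial bound for all numbers of an instance. -/
def bdU (m : ℕ) : ℕ := 75 * bigW m * bigM (3 * m) ^ 2

lemma rec_le {W M : ℕ} (hW : 1 ≤ W) (hM : 1000 * W ≤ M) {e : El} (he : Bd (W : ℝ) e) :
    (rec M e).1 ≤ 30 * M ^ 2 ∧ (rec M e).2.1 ≤ 30 * M ^ 2 ∧ (rec M e).2.2 ≤ 25 * M ^ 2 := by
  have hsq : ∀ a : ℕ, a ≤ W → 1000 * a ^ 2 ≤ M * W := by
    intro a ha
    calc 1000 * a ^ 2 = 1000 * a * a := by ring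
      _ ≤ 1000 * W * W := Nat.mul_le_mul (Nat.mul_le_mul_left _ ha) ha
      _ ≤ M * W := Nat.mul_le_mul_right _ hM
  have hMW : 1000 * (M * W) ≤ M ^ 2 := by
    calc 1000 * (M * W) = M * (1000 * W) := by ring
      _ ≤ M * M := Nat.mul_le_mul_left _ hM
      _ = M ^ 2 := by ring
  have hsub : ∀ a b : ℕ, a - b ≤ a := fun a b => Nat.sub_le a b
  cases e with
  | A p q =>
    obtain ⟨h1, h2⟩ := he
    have h1 : p ≤ W := by exact_mod_cast h1
    have h2 : q ≤ W := by exact_mod_cast h2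
    simp only [rec]
    refine ⟨?_, ?_, ?_⟩
    · calc 5 * M * (M + 12 * q) ≤ 5 * M * (6 * M) := Nat.mul_le_mul_left _ (by omega)
        _ = 30 * M ^ 2 := by ring
    · calc 5 * M * (M + 12 * p) ≤ 5 * M * (6 * M) := Nat.mul_le_mul_left _ (by omega)
        _ = 30 * M ^ 2 := by ring
    · have e1 : 5 * M * (4 * M - 12 * p - 12 * q) ≤ 5 * M * (4 * M) :=
        Nat.mul_le_mul_left _ (by omega)
      have e2 : 5 * M * (4 * M) = 20 * M ^ 2 := by ring
      have e3 := hsq p h1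
      have e4 := hsq q h2
      omega
  | B p r =>
    obtain ⟨h1, h2⟩ := he
    have h1 : p ≤ W := by exact_mod_cast h1
    have h2 : r ≤ W := by exact_mod_cast h2
    simp only [rec]
    refine ⟨?_, ?_, ?_⟩
    · calc 5 * M * (5 * M + 16 * p + 20 * r) ≤ 5 * M * (6 * M) :=
            Nat.mul_le_mul_left _ (by omega)
        _ = 30 * M ^ 2 := by ring
    · calc 5 * M * (M - 12 * p) ≤ 5 * M * (6 * M) := Nat.mul_le_mul_left _ (by omega)
        _ = 30 * M ^ 2 := by ring
    · have e1 : 5 * M * (4 * M + 36 * p + 36 * r) ≤ 5 * M * (4 * M + 72 * W) :=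
        Nat.mul_le_mul_left _ (by omega)
      have e2 : 5 * M * (4 * M + 72 * W) = 20 * M ^ 2 + 360 * (M * W) := by ring
      have e3 := hsq p h1
      have e4 := hsq r h2
      omega
  | C q r =>
    obtain ⟨h1, h2⟩ := he
    have h1 : q ≤ W := by exact_mod_cast h1
    have h2 : r ≤ W := by exact_mod_cast h2
    simp only [rec]
    refine ⟨?_, ?_, ?_⟩
    · calc 5 * M * (M - 12 * q) ≤ 5 * M * (6 * M) := Nat.mul_le_mul_left _ (by omega)
        _ = 30 * M ^ 2 := by ring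
    · calc 5 * M * (4 * M + 9 * q - 15 * r) ≤ 5 * M * (6 * M) :=
            Nat.mul_le_mul_left _ (by omega)
        _ = 30 * M ^ 2 := by ring
    · have e1 : 5 * M * (4 * M + 24 * q - 24 * r) ≤ 5 * M * (4 * M + 24 * W) :=
        Nat.mul_le_mul_left _ (by omega)
      have e2 : 5 * M * (4 * M + 24 * W) = 20 * M ^ 2 + 120 * (M * W) := by ring
      have e3 := hsq q h1
      have e4 := hsq r h2
      omega

lemma sum_rec_le {m : ℕ} (hm : 0 < m) {var : ℕ → ℕ} {sg : ℕ → Bool}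
    (hvar : ∀ t < 3 * m, var t < 3 * m) :
    (((elems (3 * m) var sg).map (rec (bigM (3 * m)))).map (fun r => r.2.2)).sum ≤ bdU m := by
  have hW1 : 1 ≤ bigW m := by unfold bigW; omega
  have hM1 := (bigM_bounds m var sg).1
  rw [List.map_map]
  have h1 : ((elems (3 * m) var sg).map ((fun r : ℕ × ℕ × ℕ => r.2.2) ∘ rec (bigM (3 * m)))).sum ≤
      (elems (3 * m) var sg).length * (25 * bigM (3 * m) ^ 2) := by
    have h2 := List.sum_le_card_nsmul
      ((elems (3 * m) var sg).map ((fun r : ℕ × ℕ × ℕ => r.2.2) ∘ rec (bigM (3 * m))))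
      (25 * bigM (3 * m) ^ 2) (by
        intro x hx
        obtain ⟨e, he, rfl⟩ := List.mem_map.mp hx
        exact (rec_le hW1 hM1 (elems_bd hm hvar e he)).2.2)
    rwa [List.length_map, smul_eq_mul] at h2
  refine h1.trans ?_
  calc (elems (3 * m) var sg).length * (25 * bigM (3 * m) ^ 2)
      ≤ (3 * bigW m) * (25 * bigM (3 * m) ^ 2) :=
        Nat.mul_le_mul_right _ (elems_length m var sg)
    _ = bdU m := by unfold bdU; ring

/-- **Structure of the instances, with a gap.** -/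
theorem struct_gap {s : ℕ} (hs : 2 ≤ s) {m : ℕ} (hm : 0 < m) (var : ℕ → ℕ) (sg : ℕ → Bool)
    (hvar : ∀ t < 3 * m, var t < 3 * m) :
    ∃ K : ℝ, (∀ π : Finset (Finset (EuclideanSpace ℝ (Fin s))),
      IsTrianglePartition {x | ∃ v ∈ pts s m var sg, toPoint v = x} π →
      (K ≤ ∑ t ∈ π, Pool.Agent.H63.Max3DM.perimeter t ↔ ∀ t ∈ π, GoodPt s (bigM (3 * m)) (bigW m) t) ∧
      (∑ t ∈ π, Pool.Agent.H63.Max3DM.perimeter t ≤ bdU m + 1) ∧
      ((∀ t ∈ π, GoodPt s (bigM (3 * m)) (bigW m) t) → K + 1 ≤ ∑ t ∈ π, Pool.Agent.H63.Max3DM.perimeter t)) := by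
  classical
  set U := (elems (3 * m) var sg).toFinset with hU
  obtain ⟨hM1, hM2⟩ := bigM_bounds m var sg
  rw [← hU] at hM2
  have hbd : ∀ e ∈ U, Bd (bigW m : ℝ) e :=
    fun e he => elems_bd hm hvar e (List.mem_toFinset.mp he)
  let f : El → EuclideanSpace ℝ (Fin s) := fun e => toPoint (rv s (bigM (3 * m)) e)
  have hf : ∀ e ∈ U, ∀ e' ∈ U, dist (f e) (f e') =
      5 * (bigM (3 * m) : ℝ) * dd (bigM (3 * m) : ℝ) e e' :=
    fun e he e' he' => dist_rv hs (hbd e he) (hbd e' he')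
  have hW1 : (1 : ℝ) ≤ (bigW m : ℝ) := by
    have : 1 ≤ bigW m := by unfold bigW; omega
    exact_mod_cast this
  have hMr : 1000 * (bigW m : ℝ) ≤ (bigM (3 * m) : ℝ) := by exact_mod_cast hM1
  have hcr : (U.card : ℝ) * (51 * bigW m) ^ 3 ≤ (bigM (3 * m) : ℝ) := by exact_mod_cast hM2
  have hMpos : (0 : ℝ) < (bigM (3 * m) : ℝ) := by linarith
  have hinj : Set.InjOn f U := fun e he e' he' heq =>
    rv_inj hs (hbd e (by exact_mod_cast he)) (hbd e' (by exact_mod_cast he')) heq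
  have hnd := elems_nodup hm var sg
  have hP : {x | ∃ v ∈ pts s m var sg, toPoint v = x}
      = ((U.image f : Finset (EuclideanSpace ℝ (Fin s))) : Set (EuclideanSpace ℝ (Fin s))) := by
    ext x
    simp only [pts, List.mem_map, Finset.coe_image, Set.mem_image, Set.mem_ofPred_eq,
      Finset.mem_coe, hU, List.mem_toFinset]
    constructor
    · rintro ⟨v, ⟨e, he, rfl⟩, rfl⟩
      exact ⟨e, he, rfl⟩
    · rintro ⟨e, he, rfl⟩
      exact ⟨_, ⟨e, he, rfl⟩, rfl⟩
  -- good triangles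
  have hgood : ∀ T : Finset (Finset El), IsTriPartition U T → ((∀ t ∈ T, Good t) ↔
      ∀ t ∈ T.image (fun t => t.image f), GoodPt s (bigM (3 * m)) (bigW m) t) := by
    intro T hT
    constructor
    · intro h t' ht'
      obtain ⟨t, ht, rfl⟩ := Finset.mem_image.mp ht'
      obtain ⟨p, q, r, rfl⟩ := h t ht
      have b1 : Bd (bigW m : ℝ) (.A p q) := hbd _ ((hT.1 _ ht).2 (by simp))
      have b2 : Bd (bigW m : ℝ) (.B p r) := hbd _ ((hT.1 _ ht).2 (by simp))
      obtain ⟨c1, c2⟩ := b1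
      obtain ⟨c3, c4⟩ := b2
      refine ⟨p, by exact_mod_cast c1, q, by exact_mod_cast c2, r, by exact_mod_cast c4, ?_⟩
      simp only [Finset.image_insert, Finset.image_singleton, f]
    · intro h t ht
      obtain ⟨p, hp, q, hq, r, hr, heq⟩ := h _ (Finset.mem_image_of_mem _ ht)
      refine ⟨p, q, r, ?_⟩
      have b1 : Bd (bigW m : ℝ) (.A p q) := ⟨by exact_mod_cast hp, by exact_mod_cast hq⟩
      have b2 : Bd (bigW m : ℝ) (.B p r) := ⟨by exact_mod_cast hp, by exact_mod_cast hr⟩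
      have b3 : Bd (bigW m : ℝ) (.C q r) := ⟨by exact_mod_cast hq, by exact_mod_cast hr⟩
      apply Finset.eq_of_subset_of_card_le
      · intro e he
        have hbe := hbd e ((hT.1 t ht).2 he)
        have : f e ∈ t.image f := Finset.mem_image_of_mem _ he
        rw [heq] at this
        simp only [Finset.mem_insert, Finset.mem_singleton] at this ⊢
        rcases this with h | h | h
        · exact Or.inl (rv_inj hs hbe b1 h)
        · exact Or.inr (Or.inl (rv_inj hs hbe b2 h))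
        · exact Or.inr (Or.inr (rv_inj hs hbe b3 h))
      · rw [(hT.1 t ht).1]
        exact Finset.card_le_three
  have hrec : ∀ e ∈ U, ((rec (bigM (3 * m)) e).2.2 : ℝ) =
      5 * (bigM (3 * m) : ℝ) * ψ (bigM (3 * m) : ℝ) e := by
    intro e he
    rcases rec_cast hM1 (hbd e he) with h | h
    · exact h.2.2
    · exfalso
      rw [h] at hMpos
      simp at hMpos
  have hsum : (((((elems (3 * m) var sg).map (rec (bigM (3 * m)))).map (fun r => r.2.2)).sum : ℕ) :
      ℝ) = 5 * (bigM (3 * m) : ℝ) * ∑ e ∈ U, ψ (bigM (3 * m) : ℝ) e := by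
    rw [List.map_map, Nat.cast_list_sum, List.map_map, Finset.mul_sum, hU,
      List.sum_toFinset _ hnd]
    apply congrArg List.sum
    apply List.map_congr_left
    intro e he
    exact hrec e (List.mem_toFinset.mpr he)
  have hsumle : 5 * (bigM (3 * m) : ℝ) * ∑ e ∈ U, ψ (bigM (3 * m) : ℝ) e ≤ (bdU m : ℝ) := by
    rw [← hsum]
    exact_mod_cast sum_rec_le hm hvar
  refine ⟨5 * (bigM (3 * m) : ℝ) * (∑ e ∈ U, ψ (bigM (3 * m) : ℝ) e
      - 7 / (bigM (3 * m) : ℝ)), ?_⟩
  intro π hπ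
  rw [hP] at hπ
  obtain ⟨T, hT, rfl⟩ := exists_preimage_partition hinj ((partition_iff _ _).mp hπ)
  rw [← hgood T hT]
  obtain ⟨g1, g2⟩ := geom_gap f (by positivity : (0 : ℝ) < 5 * (bigM (3 * m) : ℝ)) hW1 hMr U hf
    hbd hcr T hT
  refine ⟨geom_core f (by positivity) hW1 hMr U hf hbd hcr T hT, ?_, fun hg => ?_⟩
  · refine le_trans g1 ?_
    have e1 : 5 * (bigM (3 * m) : ℝ) * (∑ e ∈ U, ψ (bigM (3 * m) : ℝ) e +
        1 / 10 / (bigM (3 * m) : ℝ)) =
        5 * (bigM (3 * m) : ℝ) * ∑ e ∈ U, ψ (bigM (3 * m) : ℝ) e + 1 / 2 := by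
      field_simp
      ring
    rw [e1]
    linarith
  · refine le_trans ?_ (g2 hg)
    have e1 : 5 * (bigM (3 * m) : ℝ) * (∑ e ∈ U, ψ (bigM (3 * m) : ℝ) e -
        1 / 10 / (bigM (3 * m) : ℝ)) =
        5 * (bigM (3 * m) : ℝ) * ∑ e ∈ U, ψ (bigM (3 * m) : ℝ) e - 1 / 2 := by
      field_simp
      ring
    have e2 : 5 * (bigM (3 * m) : ℝ) * (∑ e ∈ U, ψ (bigM (3 * m) : ℝ) e -
        7 / (bigM (3 * m) : ℝ)) =
        5 * (bigM (3 * m) : ℝ) * ∑ e ∈ U, ψ (bigM (3 * m) : ℝ) e - 35 := by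
      field_simp
      ring
    rw [e1, e2]
    linarith

end Pool.Agent.H9.M3
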