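import Mathlib
import Pool.Agent.H63.Check
import Pool.Agent.H9.M3.Gap
import Pool.Agent.H9.M3.Defs

set_option autoImplicit false

/-!
# Strong NP-hardness and the absence of an FPTAS for Euclidean Max-3DM
-/

namespace Pool.Agent.H9.M3

open Pool.Agent.H80.Poly
open Pool.Agent.H63.TriGeom Pool.Agent.H63.SatCol Pool.Agent.H63.RedPoly Pool.Agent.H63.RedSat
open Pool.Agent.H63.Elems Pool.Agent.H63.Max3DM Pool.Agent.H63.Red Pool.Agent.H63.Opt
open Pool.Agent.H63.Check

/-! ### the unary reduction -/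

variable {α : Type} [BEnc α]

lemma toNat_ofNat (n : ℕ) : (UNat.ofNat n).toNat = n := rfl

/-- The vector `(x, y, 0, …, 0)` in unary. -/
def vecU (s : ℕ) (x y : ℕ) : Fin s → UNat := fun i =>
  if (i : ℕ) = 0 then UNat.ofNat x else if (i : ℕ) = 1 then UNat.ofNat y else UNat.ofNat 0

lemma natVec_vecU (s x y : ℕ) : natVec (vecU s x y) = vec s x y := by
  funext i
  unfold natVec vecU vec
  by_cases h0 : (i : ℕ) = 0
  · simp only [h0, if_true]
  · by_cases h1 : (i : ℕ) = 1
    · simp only [h1, if_true, one_ne_zero, if_false]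
    · simp only [h0, h1, if_false]
      simp

/-- The bound used in the reduction. -/
def bN (ψ : List (Lit × Lit × Lit)) : ℕ := bdU ψ.length

/-- The unary reduction. -/
def redU (s : ℕ) (ψ : List (Lit × Lit × Lit)) : List (Fin s → UNat) × UNat :=
  ((redList (lits ψ)).map (fun r => vecU s (min r.1 (bN ψ)) (min r.2.1 (bN ψ))),
    UNat.ofNat (min (((redList (lits ψ)).map (fun r => r.2.2)).sum - 35) (bN ψ)))

theorem polyVecU (s : ℕ) {x y : α → ℕ} (hx : PolyTime (fun a => UNat.ofNat (x a)))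
    (hy : PolyTime (fun a => UNat.ofNat (y a))) : PolyTime (fun a => vecU s (x a) (y a)) := by
  have key : ∀ (k : ℕ) (g : Fin k → α → UNat), (∀ i, PolyTime (g i)) →
      PolyTime (fun a => (fun i => g i a : Fin k → UNat)) := by
    intro k
    induction k with
    | zero =>
      intro g _
      exact (PolyTime.const (β := Fin 0 → UNat) (fun i => i.elim0)).congr
        (fun a => by funext i; exact i.elim0)
    | succ k ih =>
      intro g hg
      have h1 := ih (fun i => g i.succ) (fun i => hg i.succ)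
      have h2 : PolyTime (fun a => List.ofFn (fun i => g i.succ a)) := h1.transfer (fun a => rfl)
      refine ((hg 0).cons h2).transfer (fun a => ?_)
      show enc (List.ofFn fun i => g i a) = _
      rw [List.ofFn_succ]
  apply key s (fun i a => vecU s (x a) (y a) i)
  intro i
  unfold vecU
  by_cases h0 : (i : ℕ) = 0
  · simp only [h0, if_true]
    exact hx
  · by_cases h1 : (i : ℕ) = 1
    · simp only [h1, if_true, one_ne_zero, if_false]
      exact hy
    · simp only [h0, h1, if_false]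
      exact PolyTime.const _

lemma bigM_mono {a b : ℕ} (h : a ≤ b) : bigM a ≤ bigM b := by
  unfold bigM
  gcongr

lemma bdU_mono {a b : ℕ} (h : a ≤ b) : bdU a ≤ bdU b := by
  unfold bdU bigW
  have := bigM_mono (Nat.mul_le_mul_left 3 h)
  gcongr

theorem PB_bdU : PB bdU := by
  have h3 : PB (fun n : ℕ => 3 * n) := (PB.const 3).mul PB.id
  have h1 : PB (fun n : ℕ => 24 * (3 * n) ^ 2 + 24) := ((PB.const 24).mul (h3.pow 2)).add (PB.const 24)
  have h2 : PB (fun n : ℕ => 400000 * (24 * (3 * n) ^ 2 + 24) ^ 4) := (PB.const 400000).mul (h1.pow 4)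
  exact ((PB.const 75).mul h1).mul (h2.pow 2)

theorem polyBN {f : α → List (Lit × Lit × Lit)} (hf : PolyTime f) :
    PolyTime (fun a => bN (f a)) := by
  have c : ∀ k : ℕ, PolyTime (fun _ : α => k) := fun k => PolyTime.const k
  have hl := hf.length
  have h3 := (c 3).mul hl
  exact ((c 75).mul (((c 24).mul (h3.pow 2)).add (c 24))).mul ((polyBigM h3).pow 2)

theorem polyRedU (s : ℕ) : PolyTime (redU s) := by
  have hL : PolyTime (fun ψ : List (Lit × Lit × Lit) => redList (lits ψ)) := polyRedList.comp polyLits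
  have hw : PolyTime (fun w : List (Lit × Lit × Lit) × (ℕ × ℕ × ℕ) => w) := PolyTime.id
  have hb : PolyTime (fun w : List (Lit × Lit × Lit) × (ℕ × ℕ × ℕ) => bN w.1) := polyBN hw.fst
  have hbd : ∀ w : List (Lit × Lit × Lit) × (ℕ × ℕ × ℕ), bN w.1 ≤ bdU (size w) := by
    intro w
    have h1 := length_le_size w.1
    have h2 := size_prod w
    exact bdU_mono (by omega)
  have m1 : PolyTime (fun w : List (Lit × Lit × Lit) × (ℕ × ℕ × ℕ) =>
      UNat.ofNat (min w.2.1 (bN w.1))) :=
    (hw.snd.fst.min hb).natToUnat ⟨bdU, PB_bdU, fun w => (min_le_right _ _).trans (hbd w)⟩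
  have m2 : PolyTime (fun w : List (Lit × Lit × Lit) × (ℕ × ℕ × ℕ) =>
      UNat.ofNat (min w.2.2.1 (bN w.1))) :=
    (hw.snd.snd.fst.min hb).natToUnat ⟨bdU, PB_bdU, fun w => (min_le_right _ _).trans (hbd w)⟩
  have h1 : PolyTime (fun ψ : List (Lit × Lit × Lit) =>
      (redList (lits ψ)).map (fun r => vecU s (min r.1 (bN ψ)) (min r.2.1 (bN ψ)))) :=
    PolyTime.map hL
      (g := fun w : List (Lit × Lit × Lit) × (ℕ × ℕ × ℕ) =>
        vecU s (min w.2.1 (bN w.1)) (min w.2.2.1 (bN w.1))) (polyVecU s m1 m2)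
  have h2 : PolyTime (fun ψ : List (Lit × Lit × Lit) =>
      (redList (lits ψ)).map (fun r => r.2.2)) :=
    PolyTime.map hL (g := fun w : List (Lit × Lit × Lit) × (ℕ × ℕ × ℕ) => w.2.2.2) hw.snd.snd.snd
  have h3 : PolyTime (fun ψ : List (Lit × Lit × Lit) =>
      UNat.ofNat (min (((redList (lits ψ)).map (fun r => r.2.2)).sum - 35) (bN ψ))) :=
    ((h2.sum.sub (PolyTime.const 35)).min (polyBN PolyTime.id)).natToUnat
      ⟨bdU, PB_bdU, fun ψ => (min_le_right _ _).trans (bdU_mono (length_le_size ψ))⟩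
  exact h1.pair h3

/-- For formulas with small indices the unary instance is the binary one. -/
theorem redU_eq (s : ℕ) (ψ : List (Lit × Lit × Lit))
    (hψ : ∀ c ∈ ψ, c.1.1 < 3 * ψ.length ∧ c.2.1.1 < 3 * ψ.length ∧ c.2.2.1 < 3 * ψ.length) :
    ((redU s ψ).1.map natVec, (((redU s ψ).2.toNat : ℕ) : ℚ)) = red s ψ := by
  have hvar := var_lt ψ hψ
  rcases Nat.eq_zero_or_pos ψ.length with h0 | hm
  · have h1 : ψ = [] := List.eq_nil_of_length_eq_zero h0
    subst h1
    simp [redU, red, redList, lits, elems, toInst, toNat_ofNat]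
  have hW1 : 1 ≤ bigW ψ.length := by unfold bigW; omega
  have hM1 := (bigM_bounds ψ.length (varOf (lits ψ)) (sgOf (lits ψ))).1
  have hL : redList (lits ψ) = (elems (3 * ψ.length) (varOf (lits ψ)) (sgOf (lits ψ))).map
      (rec (bigM (3 * ψ.length))) := by
    unfold redList
    rw [lits_length]
  have hbnd : 30 * bigM (3 * ψ.length) ^ 2 ≤ bdU ψ.length := by
    unfold bdU
    calc 30 * bigM (3 * ψ.length) ^ 2 ≤ (75 * bigW ψ.length) * bigM (3 * ψ.length) ^ 2 :=
          Nat.mul_le_mul_right _ (by omega)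
      _ = _ := rfl
  have hrec : ∀ r ∈ redList (lits ψ), r.1 ≤ bdU ψ.length ∧ r.2.1 ≤ bdU ψ.length := by
    intro r hr
    rw [hL] at hr
    obtain ⟨e, he, rfl⟩ := List.mem_map.mp hr
    obtain ⟨h1, h2, _⟩ := rec_le hW1 hM1 (elems_bd hm hvar e he)
    exact ⟨h1.trans hbnd, h2.trans hbnd⟩
  have hsum : ((redList (lits ψ)).map (fun r => r.2.2)).sum - 35 ≤ bdU ψ.length := by
    rw [hL]
    exact (Nat.sub_le _ _).trans (sum_rec_le hm hvar)
  have e1 : (redU s ψ).1.map natVec =
      (redList (lits ψ)).map (fun r => vec s r.1 r.2.1) := by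
    unfold redU
    simp only [List.map_map]
    apply List.map_congr_left
    intro r hr
    obtain ⟨h1, h2⟩ := hrec r hr
    show natVec (vecU s (min r.1 (bdU ψ.length)) (min r.2.1 (bdU ψ.length))) = _
    rw [natVec_vecU, min_eq_left h1, min_eq_left h2]
  have e2 : (redU s ψ).2.toNat = ((redList (lits ψ)).map (fun r => r.2.2)).sum - 35 := by
    show min (((redList (lits ψ)).map (fun r => r.2.2)).sum - 35) (bdU ψ.length) = _
    exact min_eq_left hsum
  rw [e1, e2]
  rfl

/-- Correctness of the unary reduction. -/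
theorem redU_correct {s : ℕ} (hs : 2 ≤ s) (ψ : List (Lit × Lit × Lit))
    (hψ : ∀ c ∈ ψ, c.1.1 < 3 * ψ.length ∧ c.2.1.1 < 3 * ψ.length ∧ c.2.2.1 < 3 * ψ.length) :
    Sat3' ψ ↔ MaxPerimeterU s (redU s ψ) := by
  unfold MaxPerimeterU
  rw [redU_eq s ψ hψ]
  exact red_correct hs ψ hψ

/-! ### approximations -/

/-- the precision at which the approximation is called -/
def precU (ψ : List (Lit × Lit × Lit)) : UNat := UNat.ofNat (bN ψ + 1)

theorem polyPrecU : PolyTime precU :=
  ((polyBN PolyTime.id).add (PolyTime.const 1)).natToUnat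
    ⟨fun n => bdU n + 1, PB_bdU.add (PB.const 1), fun ψ =>
      Nat.add_le_add_right (bdU_mono (length_le_size ψ)) 1⟩

/-- **From an approximate partition to satisfiability.** -/
theorem check_approx {s : ℕ} (hs : 2 ≤ s) (ψ : List (Lit × Lit × Lit))
    (hψ : ∀ c ∈ ψ, c.1.1 < 3 * ψ.length ∧ c.2.1.1 < 3 * ψ.length ∧ c.2.2.1 < 3 * ψ.length)
    (out : List ((Fin s → ℚ) × (Fin s → ℚ) × (Fin s → ℚ)))
    (h1 : 3 * out.length = (red s ψ).1.length)
    (h2 : IsTrianglePartition {x | ∃ v ∈ (red s ψ).1, toPoint v = x} (triangles out))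
    (h3 : ∀ π' : Finset (Finset (EuclideanSpace ℝ (Fin s))),
      IsTrianglePartition {x | ∃ v ∈ (red s ψ).1, toPoint v = x} π' →
        (1 - 1 / (((precU ψ).toNat : ℝ) + 1)) * ∑ t ∈ π', perimeter t ≤
          ∑ t ∈ triangles out, perimeter t) :
    Sat3' ψ ↔ check s out = true := by
  classical
  have hvar := var_lt ψ hψ
  have hprec : ((precU ψ).toNat : ℝ) = (bdU ψ.length : ℝ) + 1 := by
    show ((bdU ψ.length + 1 : ℕ) : ℝ) = _
    push_cast
    rfl
  rw [hprec] at h3
  rw [red_fst] at h1 h2 h3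
  rw [sat_iff]
  rcases Nat.eq_zero_or_pos ψ.length with h0 | hm
  · rw [h0] at h1 ⊢
    have hout : out = [] := by
      apply List.eq_nil_of_length_eq_zero
      have : (pts s 0 (varOf (lits ψ)) (sgOf (lits ψ))).length = 0 := by
        simp [pts, elems]
      omega
    rw [hout]
    constructor
    · intro _
      rfl
    · intro _
      exact ⟨fun _ => true, fun j hj => absurd hj (Nat.not_lt_zero j)⟩
  obtain ⟨_, _, hsat⟩ := struct hs hm (varOf (lits ψ)) (sgOf (lits ψ)) hvar
  obtain ⟨K, hK⟩ := struct_gap hs hm (varOf (lits ψ)) (sgOf (lits ψ)) hvar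
  generalize ψ.length = m at *
  generalize varOf (lits ψ) = var at *
  generalize sgOf (lits ψ) = sg at *
  have hlen : out.length = 108 * m ^ 2 + 22 * m := by
    have : (pts s m var sg).length = 3 * (108 * m ^ 2 + 22 * m) := by
      unfold pts
      rw [List.length_map, elems_length']
    omega
  have hW : bigW m ≤ 2 * out.length + 24 := by
    rw [hlen]
    unfold bigW
    nlinarith
  have hmem : ∀ t ∈ out, ({toPoint t.1, toPoint t.2.1, toPoint t.2.2} :
      Finset (EuclideanSpace ℝ (Fin s))) ∈ triangles out := by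
    intro t ht
    unfold triangles
    rw [List.mem_toFinset, List.mem_map]
    exact ⟨t, ht, rfl⟩
  have hmem' : ∀ t ∈ triangles out, ∃ u ∈ out, t = ({toPoint u.1, toPoint u.2.1, toPoint u.2.2} :
      Finset (EuclideanSpace ℝ (Fin s))) := by
    intro t ht
    unfold triangles at ht
    rw [List.mem_toFinset, List.mem_map] at ht
    obtain ⟨u, hu, rfl⟩ := ht
    exact ⟨u, hu, rfl⟩
  have hgood : (∀ t ∈ triangles out, GoodPt s (bigM (3 * m)) (bigW m) t) ↔
      out.all (fun t => chk3 s out.length m t) = true := by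
    rw [List.all_eq_true]
    constructor
    · intro h t ht
      have := hmem t ht
      exact (good_iff s out.length m hW t (h2.1 _ this).1).mpr (h _ this)
    · intro h t ht
      obtain ⟨u, hu, rfl⟩ := hmem' t ht
      exact (good_iff s out.length m hW u (h2.1 _ ht).1).mp (h u hu)
  have hcheck : check s out = true ↔ out.all (fun t => chk3 s out.length m t) = true := by
    unfold check
    rw [List.any_eq_true]
    simp only [List.mem_range, Bool.and_eq_true, decide_eq_true_eq]
    constructor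
    · rintro ⟨m', _, hm', h⟩
      rw [hlen] at hm'
      rwa [m_unique hm'] at h
    · intro h
      refine ⟨m, ?_, hlen.symm, h⟩
      rw [hlen]
      nlinarith
  rw [hcheck, ← hgood, hsat]
  constructor
  · rintro ⟨π, hπ, hg⟩
    obtain ⟨_, k2, k3⟩ := hK π hπ
    have k4 := k3 hg
    have k5 := h3 π hπ
    have hb0 : (0 : ℝ) ≤ (bdU m : ℝ) := Nat.cast_nonneg _
    have hpos : (0 : ℝ) < (bdU m : ℝ) + 1 + 1 := by linarith
    have k6 : 1 / ((bdU m : ℝ) + 1 + 1) * ∑ t ∈ π, perimeter t ≤ 1 := by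
      rw [div_mul_eq_mul_div, one_mul, div_le_one hpos]
      linarith
    refine ((hK _ h2).1).mp ?_
    linarith
  · intro h
    exact ⟨_, h2, h⟩

end Pool.Agent.H9.M3
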